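import Mathlib
import Pool.Agent.H355R2.Schinzel1
import Pool.Agent.H355R2.MTBridge49
import Pool.Agent.H355R2.RatioQuarter

set_option autoImplicit false

/-!
# MP_1a023c_nt: ratios of shifted primes

Among any `49` distinct positive rationals there are two whose ratio has infinitely many
representations as `(p+1)/(q+1)`, and two whose ratio has infinitely many representations as
`(p-1)/(q-1)`.  In every large finite set of positive rationals at least a quarter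
(asymptotically) of the ordered pairs have the first property, and at least a quarter have the
second property.
-/

namespace Pool.Agent.Results.MP_1a023c_nt.FortyNine

open Pool.Agent.H355R2.Schinzel

theorem result :
    (∀ S : Finset ℚ, (∀ x ∈ S, 0 < x) → 49 ≤ S.card →
      (∃ x ∈ S, ∃ y ∈ S, x ≠ y ∧
        {z : ℕ × ℕ | z.1.Prime ∧ z.2.Prime ∧ ((z.1 : ℚ) + 1) / ((z.2 : ℚ) + 1) = x / y}.Infinite) ∧
      (∃ x ∈ S, ∃ y ∈ S, x ≠ y ∧
        {z : ℕ × ℕ | z.1.Prime ∧ z.2.Prime ∧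
          ((z.1 : ℚ) - 1) / ((z.2 : ℚ) - 1) = x / y}.Infinite)) ∧
    (∀ ε : ℝ, 0 < ε → ∃ N : ℕ, ∀ S : Finset ℚ, (∀ x ∈ S, 0 < x) → N ≤ S.card →
      (1 / 4 - ε) * (S.card : ℝ) ^ 2 ≤
        ({z : ℚ × ℚ | z.1 ∈ S ∧ z.2 ∈ S ∧ z.1 ≠ z.2 ∧ {w : ℕ × ℕ | w.1.Prime ∧ w.2.Prime ∧
          ((w.1 : ℚ) + 1) / ((w.2 : ℚ) + 1) = z.1 / z.2}.Infinite}.ncard : ℝ) ∧
      (1 / 4 - ε) * (S.card : ℝ) ^ 2 ≤
        ({z : ℚ × ℚ | z.1 ∈ S ∧ z.2 ∈ S ∧ z.1 ≠ z.2 ∧ {w : ℕ × ℕ | w.1.Prime ∧ w.2.Prime ∧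
          ((w.1 : ℚ) - 1) / ((w.2 : ℚ) - 1) = z.1 / z.2}.Infinite}.ncard : ℝ)) := by
  classical
  constructor
  · intro S hS hcard
    have hMT := Pool.Agent.H355R2.MT.maynardTao49
    obtain ⟨T, hTS, hT⟩ := Finset.exists_subset_card_eq hcard
    set f := T.orderEmbOfFin hT with hf
    have hfS : ∀ i, f i ∈ S := fun i => hTS (T.orderEmbOfFin_mem hT i)
    have hinj : Function.Injective f := f.injective
    constructor
    · obtain ⟨i, j, hij, h⟩ := mt_ratio 49 hMT (-1) (Or.inr rfl) f (fun i => hS _ (hfS i)) hinj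
      refine ⟨f i, hfS i, f j, hfS j, fun h' => hij (hinj h'), ?_⟩
      unfold Pool.Agent.H355R2.Schinzel.Rep at h
      push_cast at h
      simpa only [sub_neg_eq_add] using h
    · obtain ⟨i, j, hij, h⟩ := mt_ratio 49 hMT 1 (Or.inl rfl) f (fun i => hS _ (hfS i)) hinj
      refine ⟨f i, hfS i, f j, hfS j, fun h' => hij (hinj h'), ?_⟩
      unfold Pool.Agent.H355R2.Schinzel.Rep at h
      push_cast at h
      exact h
  · intro ε hε
    obtain ⟨N1, h1⟩ := Pool.Agent.H355R2.RQ.quarter_ratio 1 (Or.inl rfl) ε hε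
    obtain ⟨N2, h2⟩ := Pool.Agent.H355R2.RQ.quarter_ratio (-1) (Or.inr rfl) ε hε
    refine ⟨max N1 N2, fun S hS hcard => ⟨?_, ?_⟩⟩
    · have h := h1 S hS ((le_max_left _ _).trans hcard)
      have e : {z : ℚ × ℚ | z.1 ∈ S ∧ z.2 ∈ S ∧ z.1 ≠ z.2 ∧ {w : ℕ × ℕ | w.1.Prime ∧ w.2.Prime ∧
          ((w.1 : ℚ) + 1) / ((w.2 : ℚ) + 1) = z.1 / z.2}.Infinite} =
          ((S ×ˢ S).filter (fun z => z.1 ≠ z.2 ∧ Pool.Agent.H355R2.RQ.Rp 1 z) :
            Finset (ℚ × ℚ)) := by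
        ext z
        simp only [Finset.coe_filter, Finset.mem_product, Set.mem_ofPred_eq,
          Pool.Agent.H355R2.RQ.Rp, Int.cast_one, and_assoc]
      rw [e, Set.ncard_coe_finset]
      exact h
    · have h := h2 S hS ((le_max_right _ _).trans hcard)
      have e : {z : ℚ × ℚ | z.1 ∈ S ∧ z.2 ∈ S ∧ z.1 ≠ z.2 ∧ {w : ℕ × ℕ | w.1.Prime ∧ w.2.Prime ∧
          ((w.1 : ℚ) - 1) / ((w.2 : ℚ) - 1) = z.1 / z.2}.Infinite} =
          ((S ×ˢ S).filter (fun z => z.1 ≠ z.2 ∧ Pool.Agent.H355R2.RQ.Rp (-1) z) :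
            Finset (ℚ × ℚ)) := by
        ext z
        simp only [Finset.coe_filter, Finset.mem_product, Set.mem_ofPred_eq,
          Pool.Agent.H355R2.RQ.Rp, Int.cast_neg, Int.cast_one, and_assoc, sub_eq_add_neg]
      rw [e, Set.ncard_coe_finset]
      exact h

end Pool.Agent.Results.MP_1a023c_nt.FortyNine
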